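import Pool.Agent.T2H37.CI.Final

/-!
# Zero-cycles over the algebraic numbers on quotients of diagonal complete intersections

Let `X` be a smooth complete intersection of dimension `n ≥ 1`, of any codimension `r`, of
hypersurfaces of the same degree `m` with diagonal equations `∑ i, A j i * x i ^ m = 0`, with
arbitrary algebraic numbers as coefficients, and let `m` be one of the numbers `2, 3, 4, 5, 7`. Let
`a` be an integral combination of the automorphisms of `X` that multiply the coordinates by `m`-th
roots of unity. If `a` acts as zero on the regular `n`-forms of `X`, then it acts as zero on the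
zero-cycles of degree zero over the algebraic numbers modulo rational equivalence, up to torsion.
The regular `n`-forms are the residues given by the forms `P` of degree `r m - n - r - 1`, modulo
those that vanish on `X`, and an automorphism `g` sends `P` to `det g • P ∘ g`. For the sum `a` of
the elements of a finite group `H` this says (with the theorem of Roitman) that `CH_0(Y)_0 = 0` for
each resolution `Y` of `X / H` with `h^{n,0}(Y) = 0`; the Albanese variety of `Y` is trivial if
`n ≥ 2`.
-/

set_option autoImplicit false

namespace Pool.Agent.Results.MP_2eeeac_ag.DiagonalCompleteIntersections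

open Pool.Agent.T2H37.CI

theorem result (n r m : ℕ) [NeZero m] (hn : 1 ≤ n)
    (hm : m = 2 ∨ m = 3 ∨ m = 4 ∨ m = 5 ∨ m = 7)
    (A : Matrix (Fin r) (Fin (n + r + 1)) (AlgebraicClosure ℚ)) (hA : GeneralPosition A)
    (a : Diag (AlgebraicClosure ℚ) (n + r + 1) m →₀ ℤ)
    (ha : ∀ (d : ℕ) (P : MvPolynomial (Fin (n + r + 1)) (AlgebraicClosure ℚ)),
      d + (n + r + 1) = r * m → P.IsHomogeneous d →
        ∀ v : Fin (n + r + 1) → AlgebraicClosure ℚ, (∀ j, ∑ i, A j i * v i ^ m = 0) →
          (a.sum fun g c => (c : AlgebraicClosure ℚ) *
            ((∏ i, g.1 i) * MvPolynomial.eval (fun i => g.1 i * v i) P)) = 0)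
    (z : Pts A m →₀ ℤ) (hz : (z.sum fun _ c => c) = 0) :
    ∃ k : ℕ, 0 < k ∧ k • (a.sum fun g c => c • z.mapDomain (act g)) ∈ RatEquivZero A m :=
  main hm hA (by omega) a ha z hz

end Pool.Agent.Results.MP_2eeeac_ag.DiagonalCompleteIntersections
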