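import Pool.Agent.T2H37.PR.Dg4

/-!
# Products of cycles of degree zero on Fermat hypersurfaces over the field of algebraic numbers

Let `X` be the Fermat hypersurface of dimension `n` and degree `m`, `3 ≤ m ≤ 2 n + 1`, over the field
of algebraic numbers.

For points `x k` and `o k` of `X` such that each `o k` has a vanishing coordinate and
`x k₂ = g (x k₁)` for a linear automorphism `g` and two different indices `k₁`, `k₂`, the product of
the cycles `[x k] - [o k]` is zero in `CH_0(X ^ K)`, with rational coefficients.  By Beilinson's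
conjecture all products of two or more cycles of degree zero are zero over the field of algebraic
numbers.  The special case `([x] - [o]) × ([x] - [o]) = 0` is the relation
`(x, x) - (x, o) - (o, x) + (o, o) = 0` of the type of Beauville and Voisin.
-/

set_option autoImplicit false

namespace Pool.Agent.Results.MP_2eeeac_ag.DiagonalRelation

open Pool.Agent.T2H37.PR Pool.Agent.T2H37.FK

theorem result (K n m : ℕ) (hm : 3 ≤ m) (hmn : m ≤ 2 * n + 1)
    (x o : Fin K → Fermat (AlgebraicClosure ℚ) (n + 2) m) (ho : ∀ k, ∃ i, (o k).1.rep i = 0)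
    (k₁ k₂ : Fin K) (hk : k₁ ≠ k₂) (g : FermatGroup (AlgebraicClosure ℚ) (n + 2) m)
    (hg : x k₂ = Pool.Agent.T2H37.FK.act g (x k₁)) :
    ∃ j : ℕ, 0 < j ∧ j • extProd (N := fun _ : Fin K => n + 2)
      (fun k => Finsupp.single (x k) 1 - Finsupp.single (o k) 1) ∈
        Pool.Agent.T2H37.PR.RatEquivZero (AlgebraicClosure ℚ) (fun _ : Fin K => n + 2) m :=
  mainE hm (by omega) x o ho hk g hg

end Pool.Agent.Results.MP_2eeeac_ag.DiagonalRelation
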